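import Pool.Agent.Helper74.FN.Defs
import Pool.Agent.Helper53.WR.Tower
import Pool.Agent.Helper48.WR.FinStep

set_option autoImplicit false
set_option linter.unusedVariables false

/-!
# Project FN: statements of the pieces
-/

namespace Pool.Agent.Helper74.FN.St

open Finset Filter
open Pool.Agent.Helper3.Thin (dig und off Lab GoodSet)
open Pool.Agent.Helper53.WR
open Pool.Agent.Helper48.FB (win crossF Cs Fs dens)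
open Pool.Agent.Helper53.FM (BCov blockMax)
open Pool.Agent.Helper74.FN

section random

/-- FN-A1 (start of the levels: a random set, windows of the right order). Adapt
Helper8/FMR `mtop_base` (Helper53/FM/Rl/A4C0); use `filler_core_bal` with `b = 0`, `L = J` and the
family of all windows `[y, y + h)`, `y < 2 ^ J`, `h ≤ 2 ^ J`, `A = exp 1`. -/
theorem ntop_base (J : ℕ) (hJ : 100 ≤ J) :
    ∃ T, NTop J (Cs * (J + 1)) (Nat.log 2 J / 2 + 20) 4 (fun _ => Cs * (J + 1))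
      (fun _ => Cs * (J + 1)) T (fun _ => T) (fun _ => ∅) := by
  sorry

/-- FN-A2 (start of a tower). Adapt FM-A5 `mi_zero` (Helper53/FM/Rl/A5.lean). -/
theorem ni_zero {a u b w r c : ℕ → ℕ} (h : NTow a u b w r c) (q : ℕ → ℕ)
    (hq : ∀ i, (q i).Prime ∧ 2 ^ (a i) < q i ∧ q i ≤ 2 ^ (a i + 1)) :
    ∃ O, NI a u b r c q 0 O ∧ ∀ n, repF O n ≤ Cs * a 0 := by
  sorry

end random

section world

/-- FN-Z2 (a good set with few points in each column; the set of `exists_goodSet` is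
`parab T` with `T.card ≤ 3`). -/
theorem exists_goodSet_col (q : ℕ) [Fact q.Prime] (hq : 16 < q) :
    ∃ G : Finset (ZMod q × ZMod q), GoodSet G ∧
      ∀ x : ZMod q, (G.filter (fun p => p.1 = x)).card ≤ 3 := by
  sorry

/-- FN-Z3a (the pairs which meet a residue class, mass). -/
theorem hit_mass {q : ℕ} [Fact q.Prime] (Γ : Finset (ZMod q × ZMod q)) (hΓ : Γ.card ≤ 3 * q)
    (Z N1 m x : ℕ) (hm : 0 < m) (h1 : q ^ 4 * Z ≤ N1 * m) :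
    ((Γ ×ˢ (univ : Finset (ZMod q × ZMod q))).filter (fun y =>
      ∃ z ∈ Γ, ∃ c < Z, (und y.1 (z + y.2) + q ^ 4 * c) % m = x % m)).card
        ≤ 3 * q * (N1 + 1) := by
  sorry

/-- FN-Z3b (the pairs which meet a residue class; for every `u` there is at most one `z`). -/
theorem hit_card {q : ℕ} [Fact q.Prime] (Γ : Finset (ZMod q × ZMod q)) (Z m x : ℕ) (hm : 0 < m)
    (hc : Nat.Coprime q m) (h2 : q ^ 4 * Z ≤ m * q ^ 2)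
    (τ : ZMod q × ZMod q → ZMod q × ZMod q) :
    ((Γ ×ˢ Γ).filter (fun p =>
      ∃ c < Z, (und p.1 (p.2 + τ p.1) + q ^ 4 * c) % m = x % m)).card ≤
    (Γ.filter (fun u => ∃ z ∈ Γ, ∃ c < Z, (und u (z + τ u) + q ^ 4 * c) % m = x % m)).card := by
  sorry

/-- FN-Z3c (strips, mass). -/
theorem strip_mass {q : ℕ} [Fact q.Prime] (Γ : Finset (ZMod q × ZMod q)) (hΓ : Γ.card ≤ 3 * q)
    (c m : ℕ) :
    ((Γ ×ˢ (univ : Finset (ZMod q × ZMod q))).filter (fun y =>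
      c ≤ (y.1 + y.2).2.val + (y.1 + y.2).1.val * q ∧
        (y.1 + y.2).2.val + (y.1 + y.2).1.val * q < c + m)).card ≤ 3 * q * m := by
  sorry

/-- FN-Z3d (strips, at most six points for every shift). -/
theorem strip_six {q : ℕ} [Fact q.Prime] (Γ : Finset (ZMod q × ZMod q))
    (hcol : ∀ x : ZMod q, (Γ.filter (fun p => p.1 = x)).card ≤ 3) (c m : ℕ) (hm : m ≤ q)
    (v : ZMod q × ZMod q) :
    (Γ.filter (fun z => c ≤ (z + v).2.val + (z + v).1.val * q ∧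
        (z + v).2.val + (z + v).1.val * q < c + m)).card ≤ 6 := by
  sorry

/-- FN-Z3 (choice of `τ`; uses Z1 `tau_exists2`, Z3a - Z3d). -/
theorem tau_select3 {q : ℕ} [Fact q.Prime] (Γ : Finset (ZMod q × ZMod q)) (hΓ : Γ.card ≤ 3 * q)
    (hd : ∀ z : ZMod q × ZMod q, z ≠ 0 → ((Γ ×ˢ Γ).filter (fun p => p.1 - p.2 = z)).card ≤ 18)
    (hcol : ∀ x : ZMod q, (Γ.filter (fun p => p.1 = x)).card ≤ 3)
    (T O : Finset ℕ) (S Z H D X N La N1 V0 : ℕ) (hS : 0 < S) (Mod Mod4 : Finset ℕ)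
    (hMod : ∀ m ∈ Mod, 0 < m ∧ Nat.Coprime q m ∧ q ^ 2 ≤ m)
    (hTm : ∀ m ∈ Mod, ∀ t ∈ T, S + t < m)
    (hMod4 : ∀ m ∈ Mod4, 0 < m ∧ Nat.Coprime q m ∧ q ^ 4 * Z ≤ N1 * m ∧ q ^ 4 * Z ≤ m * q ^ 2)
    (hO : ∀ r, (O.filter (fun o => o % q ^ 2 = r)).card ≤ H)
    (hD : ∀ r, (O.filter (fun o => o % q ^ 4 = r)).card ≤ D)
    (hD0 : 0 < D) (hV0 : 0 < V0) (hVT : ∀ z, (win T z S).card ≤ V0)
    (hX1 : 1 ≤ X) (hXD : X * D ≤ H) (hXV : X * V0 ≤ T.card)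
    (hHN : H ≤ N) (hTN : S * T.card ≤ N) (hN0 : 0 < N) (hNq : 54 * N ^ 2 ≤ q)
    (hsum1 : ((q : ℝ) ^ 4 + ∑ m ∈ Mod, (m : ℝ)) *
      (Real.exp (-(8 * (X : ℝ))) + 3 * ((54 * (N : ℝ) ^ 2) / q) ^ 7) < 1 / 2)
    (hLa : 12 * La ≤ q) (hN1 : 3 * (N1 + 1) ≤ q)
    (hsum2 : (q : ℝ) ^ 3 * Real.exp (-(La : ℝ)) +
      ∑ m ∈ Mod4, (m : ℝ) * (3 * (3 * ((N1 : ℝ) + 1) / q) ^ 5) < 1 / 2) :
    ∃ τ : ZMod q × ZMod q → ZMod q × ZMod q,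
      (∀ ν : ℕ, (((Γ ×ˢ Γ) ×ˢ O).filter (fun y =>
        (und y.1.1 (y.1.2 + τ y.1.1) + y.2) % q ^ 4 = ν % q ^ 4)).card ≤ 40 * H) ∧
      (∀ m ∈ Mod, ∀ r : ℕ, ((((Γ ×ˢ Γ) ×ˢ ((range S) ×ˢ T)).filter (fun y =>
        (und y.1.1 (y.1.2 + τ y.1.1) + q ^ 4 * (S + y.2.1 + y.2.2)) % m = r % m)).card : ℝ)
          ≤ 40 * (T.card * ((q : ℝ) ^ 2 * S / m + 1))) ∧
      (∀ c m : ℕ, 1 ≤ m → ((Γ ×ˢ Γ).filter (fun p =>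
        c ≤ (p.2 + τ p.1).2.val + (p.2 + τ p.1).1.val * q ∧
          (p.2 + τ p.1).2.val + (p.2 + τ p.1).1.val * q < c + m)).card ≤ 64 * (m + La)) ∧
      ∀ m ∈ Mod4, ∀ x : ℕ, ((Γ ×ˢ Γ).filter (fun p =>
        ∃ c < Z, (und p.1 (p.2 + τ p.1) + q ^ 4 * c) % m = x % m)).card ≤ 4 := by
  sorry

/-- FN-Z4 (choice of `σ`). Adapt Helper85/FM/B1.lean `sigma_select3`: `O` below `q ^ 4 * S'`, no
family for `yS`, general bounds `H'`, `M m`, strips `K * (m + La)`. -/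
theorem sigma_select4 {q : ℕ} [Fact q.Prime] (Γ : Finset (ZMod q × ZMod q))
    (T O : Finset ℕ) (S S' : ℕ) (hS : 0 < S) (H' N L Y K La : ℕ)
    (t0 V : ℕ → ℕ) (Mod : Finset ℕ)
    (hMod : ∀ m ∈ Mod, 0 < m) (hTY : ∀ t ∈ T, t < Y) (hOS : ∀ o ∈ O, o < q ^ 4 * S')
    (τ : ZMod q × ZMod q → ZMod q × ZMod q)
    (hV : ∀ z z' : ℕ, z ≤ z' → (win T z' S).card ≤ V z)
    (hQ : ∀ ν : ℕ, (((Γ ×ˢ Γ) ×ˢ O).filter (fun y =>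
        (und y.1.1 (y.1.2 + τ y.1.1) + y.2) % q ^ 4 = ν % q ^ 4)).card ≤ H')
    (M : ℕ → ℝ)
    (hM : ∀ m ∈ Mod, ∀ r : ℕ, ((((Γ ×ˢ Γ) ×ˢ ((range S) ×ˢ T)).filter (fun y =>
        (und y.1.1 (y.1.2 + τ y.1.1) + q ^ 4 * (S + y.2.1 + y.2.2)) % m = r % m)).card : ℝ)
          ≤ M m)
    (hs : ∀ c m : ℕ, 1 ≤ m → ((Γ ×ˢ Γ).filter (fun p =>
        c ≤ (p.2 + τ p.1).2.val + (p.2 + τ p.1).1.val * q ∧
          (p.2 + τ p.1).2.val + (p.2 + τ p.1).1.val * q < c + m)).card ≤ K * (m + La))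
    (AX : ℕ → ℝ) (hAX : ∀ n < N, 1 ≤ AX n)
    (hX : ∀ n < N, (N : ℝ) * 4096 * (Real.exp (AX n *
      ((H' : ℝ) * V (n / q ^ 4 - 514 - 2 * S - S') / S)) / AX n ^ t0 n) < 1 / 8)
    (AM : ℕ → ℝ) (hAM : ∀ m ∈ Mod, 1 ≤ AM m) (y : ℕ → ℕ)
    (hY : ∑ m ∈ Mod, (m : ℝ) * (Real.exp (AM m * (M m / S)) / AM m ^ y m) < 1 / 2)
    (hL : (q : ℝ) ^ 4 * (2 * S + Y) * Real.exp (-(L : ℝ)) < 1 / 8) :
    ∃ σ : (ZMod q × ZMod q) × (ZMod q × ZMod q) → ℕ, (∀ p, σ p < S) ∧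
      (∀ n < N, ∀ ε : Lab, ((Γ ×ˢ Γ).filter (fun p => ∃ o ∈ O, ∃ t ∈ T,
        elt S τ σ p ε t + o = n)).card < t0 n) ∧
      (∀ m ∈ Mod, ∀ r : ℕ, ((Γ ×ˢ Γ).filter (fun p => ∃ t ∈ T,
        (und p.1 (p.2 + τ p.1) + q ^ 4 * (S + σ p + t)) % m = r % m)).card < y m) ∧
      ∀ c m z : ℕ, 1 ≤ m → ((Γ ×ˢ Γ).filter (fun p =>
        (c ≤ (p.2 + τ p.1).2.val + (p.2 + τ p.1).1.val * q ∧
          (p.2 + τ p.1).2.val + (p.2 + τ p.1).1.val * q < c + m) ∧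
            ∃ t ∈ T, S + σ p + t = z)).card * S
              ≤ 3 * (K * (m + La) * V (z + 1 - 2 * S)) + L * S := by
  sorry

/-- FN-Z5 (windows of a world). Adapt Helper43/FM/B2.lean `world_win_short`. -/
theorem world_win4 {q : ℕ} [Fact q.Prime] (Γ : Finset (ZMod q × ZMod q)) (T : Finset ℕ)
    (S K La L : ℕ) (V : ℕ → ℕ) (hV : Antitone V) (τ : ZMod q × ZMod q → ZMod q × ZMod q)
    (σ : (ZMod q × ZMod q) × (ZMod q × ZMod q) → ℕ) (hσ : ∀ p, σ p < S)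
    (hs : ∀ c m z : ℕ, 1 ≤ m → ((Γ ×ˢ Γ).filter (fun p =>
        (c ≤ (p.2 + τ p.1).2.val + (p.2 + τ p.1).1.val * q ∧
          (p.2 + τ p.1).2.val + (p.2 + τ p.1).1.val * q < c + m) ∧
            ∃ t ∈ T, S + σ p + t = z)).card * S
              ≤ 3 * (K * (m + La) * V (z + 1 - 2 * S)) + L * S)
    (y h : ℕ) (hh : h ≤ q ^ 4) :
    (win (World Γ T S τ σ) y h).card * S ≤
      4096 * (2 * (3 * (K * (h / q ^ 2 + 2 + La) * V (y / q ^ 4 - 514 - 2 * S)) + L * S)) := by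
  sorry

/-- FN-Z6 (one world, numerical hypotheses; uses Z2, Z3, Z4, Z5). Adapt
Helper53/FM/Rl/B5.lean. -/
theorem world_exists4 {q : ℕ} [Fact q.Prime] (hq : 16 < q) (T O : Finset ℕ) (T' : ℕ → Finset ℕ)
    (hTT : ∀ i, T' i ⊆ T) (S S' Y H D X Nn La N1 V0 N L : ℕ) (t0 W : ℕ → ℕ) (hS : 0 < S)
    (Mod Mod4 : Finset ℕ)
    (hMod : ∀ m ∈ Mod, 0 < m ∧ Nat.Coprime q m ∧ q ^ 2 ≤ m)
    (hTm : ∀ m ∈ Mod, ∀ t ∈ T, S + t < m)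
    (hMod4 : ∀ m ∈ Mod4, 0 < m ∧ Nat.Coprime q m ∧ q ^ 4 * (2 * S + Y) ≤ N1 * m ∧
      q ^ 4 * (2 * S + Y) ≤ m * q ^ 2)
    (hTm4 : ∀ m ∈ Mod4, ∀ t ∈ T, t < m)
    (hTY : ∀ t ∈ T, t < Y) (hOS : ∀ o ∈ O, o < q ^ 4 * S')
    (hO : ∀ r, (O.filter (fun o => o % q ^ 2 = r)).card ≤ H)
    (hD : ∀ r, (O.filter (fun o => o % q ^ 4 = r)).card ≤ D)
    (hD0 : 0 < D) (hV0 : 0 < V0) (hVT : ∀ z, (win T z S).card ≤ V0)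
    (hX1 : 1 ≤ X) (hXD : X * D ≤ H) (hXV : X * V0 ≤ T.card)
    (hHN : H ≤ Nn) (hTN : S * T.card ≤ Nn) (hN0 : 0 < Nn) (hNq : 54 * Nn ^ 2 ≤ q)
    (hsum1 : ((q : ℝ) ^ 4 + ∑ m ∈ Mod, (m : ℝ)) *
      (Real.exp (-(8 * (X : ℝ))) + 3 * ((54 * (Nn : ℝ) ^ 2) / q) ^ 7) < 1 / 2)
    (hLa : 12 * La ≤ q) (hN1 : 3 * (N1 + 1) ≤ q)
    (hsum2 : (q : ℝ) ^ 3 * Real.exp (-(La : ℝ)) +
      ∑ m ∈ Mod4, (m : ℝ) * (3 * (3 * ((N1 : ℝ) + 1) / q) ^ 5) < 1 / 2)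
    (hW : ∀ n < N, ∀ z, n / q ^ 4 ≤ z + 514 + 2 * S + S' → (win T z S).card ≤ W n)
    (AX : ℕ → ℝ) (hAX : ∀ n < N, 1 ≤ AX n)
    (hX : ∀ n < N, (N : ℝ) * 4096 * (Real.exp (AX n * ((40 : ℝ) * H * W n / S)) / AX n ^ t0 n)
      < 1 / 8)
    (AM : ℕ → ℝ) (hAM : ∀ m ∈ Mod, 1 ≤ AM m) (y : ℕ → ℕ)
    (hY : ∑ m ∈ Mod, (m : ℝ) * (Real.exp (AM m *
      ((40 : ℝ) * (T.card * ((q : ℝ) ^ 2 / m + 1 / S)))) / AM m ^ y m) < 1 / 2)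
    (hL : (q : ℝ) ^ 4 * (2 * S + Y) * Real.exp (-(L : ℝ)) < 1 / 8) :
    ∃ (A : Finset ℕ) (A' : ℕ → Finset ℕ), (∀ i, A' i ⊆ A) ∧
      (∀ b ∈ A, q ^ 4 * S ≤ b ∧ b < q ^ 4 * (514 + 2 * S + Y)) ∧
      (∀ i f, (∀ n, repF (T' i) n ≤ f) → ∀ n, repF (A' i) n ≤ 4096 ^ 2 * 2592 * f) ∧
      (∀ n g, (∀ m, n / q ^ 4 ≤ m + 1028 + 4 * S → m ≤ n / q ^ 4 → repF T m ≤ g) →
        repF A n ≤ 4096 ^ 2 * 2592 * g) ∧
      (∀ n c, 9 + 8 * S ≤ n / q ^ 4 →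
        (∀ m : ℕ, n / q ^ 4 ≤ m + 4 + 4 * S → m ≤ n / q ^ 4 →
          ∃ t ∈ T, ∃ t' ∈ T, t + t' = m ∧ m ≤ c * t ∧ m ≤ c * t') →
        ∃ x ∈ A, ∃ y ∈ A, x + y = n ∧ n ≤ 2 * c * x ∧ n ≤ 2 * c * y) ∧
      (∀ i n c, 9 + 8 * S ≤ n / q ^ 4 →
        (∀ m : ℕ, n / q ^ 4 ≤ m + 4 + 4 * S → m ≤ n / q ^ 4 →
          ∃ t ∈ T' i, ∃ t' ∈ T' i, t + t' = m ∧ m ≤ c * t ∧ m ≤ c * t') →
        ∃ x ∈ A' i, ∃ y ∈ A' i, x + y = n ∧ n ≤ 2 * c * x ∧ n ≤ 2 * c * y) ∧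
      (∀ m ∈ Mod, ∀ r, (A.filter (fun b => b % m = r)).card ≤ 4096 * y m) ∧
      (∀ m ∈ Mod4, ∀ r, (A.filter (fun b => b % m = r)).card ≤ C4) ∧
      (∀ n < N, (crossF A O n).card ≤ 4096 * (t0 n * D)) ∧
      (∀ y h W, h ≤ q ^ 4 → (∀ z, y / q ^ 4 ≤ z + 514 + 2 * S → (win T z S).card ≤ W) →
        (win A y h).card * S ≤
          4096 * (2 * (3 * (64 * (h / q ^ 2 + 2 + La) * W) + L * S))) := by
  sorry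

/-- FN-N1 (consequences of the parameter inequalities). -/
theorem NTow.facts {a u b w r c : ℕ → ℕ} (h : NTow a u b w r c) (k : ℕ) :
    60000 ≤ u k ∧ 2 ^ 42 * u k ≤ a k ∧ k + 1 ≤ a k ∧ a k < 2 ^ (u k) ∧ b k ≤ u k ∧ w k ≤ u k ∧
      r k ≤ u k ∧ 2 ^ (r k + b k + w k + 80) ≤ a k ∧ k ≤ a k := by
  sorry

/-- FN-N2 (the size of the top set). -/
theorem top_card {a u b w r c : ℕ → ℕ} (h : NTow a u b w r c) (k : ℕ) {f g : ℕ → ℕ}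
    {T : Finset ℕ} {T' B : ℕ → Finset ℕ}
    (hT : NTop (laT u k) (Fs u k) (w k) (c k) f g T T' B) :
    2 ^ (2 * u k + 4 * u (k + 1) - 4) ≤ T.card ∧
      T.card ≤ 2 ^ (b k + 2 * u k + 4 * u (k + 1) - 29) := by
  sorry

/-- FN-N3 (the windows of the top set). -/
theorem top_win {a u b w r c : ℕ → ℕ} (h : NTow a u b w r c) (k : ℕ) {f g : ℕ → ℕ}
    {T : Finset ℕ} {T' B : ℕ → Finset ℕ}
    (hT : NTop (laT u k) (Fs u k) (w k) (c k) f g T T' B) (z z' : ℕ) (hz : z ≤ z') :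
    (win T z' (2 ^ s0 u k)).card ≤
      2 ^ (w k + 5 + s0 u k - max (s0 u k) (Nat.log 2 z) / 2) := by
  sorry

/-- FN-N4 (numerics of the windows of the world; uses N1, N3). -/
theorem wn_num {a u b w r c : ℕ → ℕ} (h : NTow a u b w r c) (k : ℕ) {q : ℕ}
    (hq1 : 2 ^ a k < q) (hq2 : q ≤ 2 ^ (a k + 1)) (T A : Finset ℕ)
    (hT : ∀ z z', z ≤ z' → (win T z' (2 ^ s0 u k)).card ≤
      2 ^ (w k + 5 + s0 u k - max (s0 u k) (Nat.log 2 z) / 2))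
    (hA : ∀ x ∈ A, 2 ^ sN a u k ≤ x ∧ x < 2 ^ (4 * a (k + 1) + 8 * u (k + 1)))
    (hs : ∀ y h W, h ≤ q ^ 4 →
      (∀ z, y / q ^ 4 ≤ z + 514 + 2 * 2 ^ s0 u k → (win T z (2 ^ s0 u k)).card ≤ W) →
      (win A y h).card * 2 ^ s0 u k ≤
        4096 * (2 * (3 * (64 * (h / q ^ 2 + 2 + 4 * a k) * W) + 5 * a k * 2 ^ s0 u k))) :
    WinB A 0 (2 ^ (w k + 31)) (2 ^ 16 * a k) := by
  sorry

/-- FN-N5 (numerics of the cross sums; uses N1, N3). -/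
theorem cross_num {a u b w r c : ℕ → ℕ} (h : NTow a u b w r c) (k : ℕ) {q : ℕ}
    (hq1 : 2 ^ a k < q) (hq2 : q ≤ 2 ^ (a k + 1)) (T : Finset ℕ)
    (hT : ∀ z z', z ≤ z' → (win T z' (2 ^ s0 u k)).card ≤
      2 ^ (w k + 5 + s0 u k - max (s0 u k) (Nat.log 2 z) / 2))
    (hlt : ∀ x ∈ T, x < 2 ^ laT u k)
    (N : ℕ) (hN : N = 2 ^ (4 * a (k + 1) + 8 * u (k + 1) + 1)) (n : ℕ) (hn : n < N) :
    ∃ W : ℕ, (∀ z, n / q ^ 4 ≤ z + 514 + 2 * 2 ^ s0 u k + 2 ^ (8 * u k) →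
        (win T z (2 ^ s0 u k)).card ≤ W) ∧
      (N : ℝ) * 4096 * (Real.exp (2 ^ (r k + (Nat.log 2 n - sN a u k) / 2) *
        ((40 : ℝ) * ((2 ^ (4 * u k + b k + 1) : ℕ) : ℝ) * W / ((2 ^ s0 u k : ℕ) : ℝ))) /
        (2 ^ (r k + (Nat.log 2 n - sN a u k) / 2)) ^
          tN (a k) (r k) (Nat.log 2 n - sN a u k)) < 1 / 8 := by
  sorry

/-- The threshold for the residue classes modulo `q i ^ 2`. -/
def yN (u b : ℕ → ℕ) (k i : ℕ) : ℕ :=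
  2 ^ (4 * u i + b i) / 2 ^ (i - k) / 2 ^ 12 + 2 ^ (2 * u i - 12)

/-- FN-N6 (numerics of the residue classes; uses N1, N2). `i` runs over the indices above `k` with
`a i ≤ 3 * a k`. -/
theorem res_num {a u b w r c : ℕ → ℕ} (h : NTow a u b w r c) (k : ℕ) (q : ℕ → ℕ)
    (hq : ∀ i, (q i).Prime ∧ 2 ^ (a i) < q i ∧ q i ≤ 2 ^ (a i + 1)) (T : Finset ℕ)
    (hT : T.card ≤ 2 ^ (b k + 2 * u k + 4 * u (k + 1) - 29)) (I : Finset ℕ)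
    (hI : ∀ i ∈ I, k < i ∧ a i ≤ 3 * a k) :
    ∑ i ∈ I, ((q i ^ 2 : ℕ) : ℝ) * (Real.exp (Real.exp 1 * ((40 : ℝ) *
      (T.card * ((q k : ℝ) ^ 2 / ((q i ^ 2 : ℕ) : ℝ) + 1 / ((2 ^ s0 u k : ℕ) : ℝ))))) /
        Real.exp 1 ^ yN u b k i) < 1 / 2 := by
  sorry

/-- FN-N7 (numerics of the choice of `τ`; uses N1). -/
theorem tau_num {a u b w r c : ℕ → ℕ} (h : NTow a u b w r c) (k : ℕ) (q : ℕ → ℕ)
    (hq : ∀ i, (q i).Prime ∧ 2 ^ (a i) < q i ∧ q i ≤ 2 ^ (a i + 1)) (I : Finset ℕ)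
    (hI : ∀ i ∈ I, k < i ∧ a i ≤ 3 * a k) :
    54 * (2 ^ (24 * u k)) ^ 2 ≤ q k ∧
    (((q k : ℝ) ^ 4 + ∑ i ∈ I, ((q i ^ 2 : ℕ) : ℝ)) *
      (Real.exp (-(8 * ((a k : ℕ) : ℝ))) +
        3 * ((54 * ((2 ^ (24 * u k) : ℕ) : ℝ) ^ 2) / q k) ^ 7) < 1 / 2) ∧
    12 * (4 * a k) ≤ q k ∧ 3 * (2 ^ (11 * u k) + 1) ≤ q k ∧
    ((q k : ℝ) ^ 3 * Real.exp (-((4 * a k : ℕ) : ℝ)) +
      (((q (k + 1) ^ 4 : ℕ) : ℝ) + ((q (k + 2) ^ 4 : ℕ) : ℝ)) *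
        (3 * (3 * (((2 ^ (11 * u k) : ℕ) : ℝ) + 1) / q k) ^ 5) < 1 / 2) := by
  sorry

/-- FN-N8 (numerics of the moduli and of the additive constants; uses N1). -/
theorem mod4_num {a u b w r c : ℕ → ℕ} (h : NTow a u b w r c) (k : ℕ) (q : ℕ → ℕ)
    (hq : ∀ i, (q i).Prime ∧ 2 ^ (a i) < q i ∧ q i ≤ 2 ^ (a i + 1)) (i : ℕ)
    (hi : i = k + 1 ∨ i = k + 2) :
    q k ^ 4 * (2 * 2 ^ s0 u k + 2 ^ laT u k) ≤ 2 ^ (11 * u k) * q i ^ 4 ∧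
      q k ^ 4 * (2 * 2 ^ s0 u k + 2 ^ laT u k) ≤ q i ^ 4 * q k ^ 2 := by
  sorry

/-- FN-N9 (numerics of the moduli; uses N1). -/
theorem mod2_num {a u b w r c : ℕ → ℕ} (h : NTow a u b w r c) (k : ℕ) (q : ℕ → ℕ)
    (hq : ∀ i, (q i).Prime ∧ 2 ^ (a i) < q i ∧ q i ≤ 2 ^ (a i + 1)) (i : ℕ) (hi : k < i) :
    2 ^ s0 u k + 2 ^ laT u k < q i ^ 2 ∧ q k ^ 2 ≤ q i ^ 2 ∧ Nat.Coprime (q k) (q i) ∧
      (3 * a k < a i → 2 ^ (4 * a (k + 1) + 8 * u (k + 1)) ≤ q i ^ 2) := by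
  sorry

/-- FN-N10 (numerics of the additive constant of the windows; uses N1). -/
theorem L_num {a u b w r c : ℕ → ℕ} (h : NTow a u b w r c) (k : ℕ) {q : ℕ}
    (hq2 : q ≤ 2 ^ (a k + 1)) :
    (q : ℝ) ^ 4 * (2 * ((2 ^ s0 u k : ℕ) : ℝ) + ((2 ^ laT u k : ℕ) : ℝ)) *
      Real.exp (-((5 * a k : ℕ) : ℝ)) < 1 / 8 := by
  sorry

/-- FN-Z9 (one world of a tower; uses Z6, N1 - N10). Adapt Helper53/FM/Rl/B8.lean. `X = a k`,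
`Nn = 2 ^ (24 * u k)`, `La = 4 * a k`, `L = 5 * a k`, `N1 = 2 ^ (11 * u k)`, `D = D0`,
`H = 2 ^ (4 * u k + b k + 1)`, `S' = 2 ^ (8 * u k)`, `Y = 2 ^ laT u k`. -/
theorem ntower_world {a u b w r c : ℕ → ℕ} (h : NTow a u b w r c) (f g : ℕ → ℕ) (k : ℕ)
    (q : ℕ → ℕ) (hq : ∀ i, (q i).Prime ∧ 2 ^ (a i) < q i ∧ q i ≤ 2 ^ (a i + 1))
    (T O : Finset ℕ) (T' B : ℕ → Finset ℕ)
    (hT : NTop (laT u k) (Fs u k) (w k) (c k) f g T T' B) (hO : NI a u b r c q k O) :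
    ∃ A A', NW a u b w r c f g q B k O A A' := by
  sorry

end world

section tower

/-- FN-C1 (one stage). Adapt FM-C1 (Helper53/FM/Pf/C1.lean). -/
theorem ni_step {a u b w r c : ℕ → ℕ} (h : NTow a u b w r c) (f g : ℕ → ℕ) (k : ℕ) (q : ℕ → ℕ)
    (hq : ∀ i, (q i).Prime ∧ 2 ^ (a i) < q i ∧ q i ≤ 2 ^ (a i + 1)) (B : ℕ → Finset ℕ)
    (O A : Finset ℕ) (A' : ℕ → Finset ℕ)
    (hO : NI a u b r c q k O) (hA : NW a u b w r c f g q B k O A A') :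
    NI a u b r c q (k + 1) (O ∪ A) := by
  sorry

/-- FN-C2 (all stages; uses A2, Z9, C1). Adapt FM-C2. -/
theorem ntower_pieces {a u b w r c : ℕ → ℕ} (h : NTow a u b w r c) (f g : ℕ → ℕ → ℕ)
    (T : ℕ → Finset ℕ) (T' B : ℕ → ℕ → Finset ℕ)
    (hT : ∀ k, NTop (laT u k) (Fs u k) (w k) (c k) (f k) (g k) (T k) (T' k) (B k)) :
    ∃ (q : ℕ → ℕ) (S A : ℕ → Finset ℕ) (A' : ℕ → ℕ → Finset ℕ),
      (∀ i, (q i).Prime ∧ 2 ^ (a i) < q i ∧ q i ≤ 2 ^ (a i + 1)) ∧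
      (∀ k, S (k + 1) = S k ∪ A k) ∧ (∀ k, NI a u b r c q k (S k)) ∧
      (∀ n, repF (S 0) n ≤ Cs * a 0) ∧
      (∀ k, NW a u b w r c (f k) (g k) q (B k) k (S k) (A k) (A' k)) := by
  sorry

/-- FN-C3 (the union of all stages; uses C2). Adapt FM-C3 (Helper53/FM/Rl/C3.lean). `ρ` selects
the thin parts of the worlds and `v` their distance from the start of the world. -/
theorem ntower {a u b w r c : ℕ → ℕ} (h : NTow a u b w r c) (f g : ℕ → ℕ → ℕ)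
    (T : ℕ → Finset ℕ) (T' B : ℕ → ℕ → Finset ℕ)
    (hT : ∀ k, NTop (laT u k) (Fs u k) (w k) (c k) (f k) (g k) (T k) (T' k) (B k)) :
    ∃ A : Set ℕ, (0 ∈ A ∧ 1 ∈ A) ∧
      (∀ k n, 2 ≤ n → n < 2 ^ sN a u k →
        ∃ x ∈ A, ∃ y ∈ A, x + y = n ∧ n ≤ 2 * c k * x ∧ n ≤ 2 * c k * y) ∧
      (∀ n, n < 2 ^ sN a u 0 → rep A n ≤ Cs * a 0) ∧
      (∀ k n, 2 ^ sN a u k ≤ n → n < 2 ^ sN a u (k + 1) →
        rep A n ≤ Rb a r k + 2 ^ 63 * (a k / r k)) ∧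
      (∀ k j G, sN a u k + 21 ≤ j → j + 1 ≤ sN a u (k + 1) →
        (∀ l, l ≤ 5 → g k (j - 4 * a k - l) ≤ G) → ∀ n, 2 ^ j ≤ n → n < 2 ^ (j + 1) →
          rep A n ≤ 4096 ^ 2 * 2592 * G
            + 2 * (4096 * (tN (a k) (r k) (j - sN a u k) * D0))) ∧
      (∀ k J W, J ≤ sN a u (k + 1) → (∀ i, i ≤ k → w i ≤ W) →
        WinB (Pool.Agent.Helper48.WR.cut A J) (4 * a 0 + 8 * u 0 + 1) (2 ^ (W + 32))
          (2 ^ 17 * a k)) ∧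
      ∀ ρ v : ℕ → ℕ, (∀ k, 21 ≤ v k) → ∃ A' : Set ℕ, A' ⊆ A ∧
        (∀ n, n < 2 ^ (sN a u 0 + 21) → rep A' n = 0) ∧
        (∀ k n, 2 ^ (sN a u k + 21) ≤ n → n < 2 ^ (sN a u (k + 1) + 21) →
          rep A' n ≤ 4096 ^ 2 * 2592 * f k (ρ k)
            + 2 * (4096 * (tN (a k) (r k) (v k) * D0))) ∧
        ∀ k j, sN a u k + 9 + v k + Nat.log 2 (c k) ≤ j → j + 1 ≤ sN a u (k + 1) →
          (∀ l, l ≤ 5 → j - 4 * a k - l ∉ B k (ρ k)) → BCov A' (2 * c k) j := by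
  sorry

end tower

section levels

/-- FN-D1 (finite theorem; uses A1, C3). Adapt Helper53/FM/Rl/{D1a,D1b,D1}.lean. Inside, the
levels carry two bounds for the windows: `w ≤ Nat.log 2 J / 2 + 20` and `w ≤ W + 32` per level;
`r = 1`, `b k = Nat.log 2 (a k) / 2 + 41`, `a 0 = 2 ^ (9 s)`, `u k = a k / 2 ^ (s + 5)`. -/
theorem finite_thm4 : ∃ c0 s0 : ℕ, ∀ s, s0 ≤ s → ∀ J : ℕ, 100 ≤ J → 14 * Nat.log 2 J ≤ s ^ 2 →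
    ∃ (T : Finset ℕ) (T' B : ℕ → Finset ℕ) (g : ℕ → ℕ),
      NTop J (Cs * (J + 1)) (c0 * s) (2 ^ s) (fun R => (R + 1) * 2 ^ (c0 * s)) g T T' B ∧
      ∑ j ∈ range J, g j ≤ 2 ^ (c0 * s) * J ∧
      ∀ R, (B R).card * (R + 1) ≤ 2 ^ (c0 * s) * J ∧ ∀ j ∈ B R, j < J := by
  sorry

/-- FN-D2 (infinite theorem; uses C3, D1). Adapt Helper63/FM. `r k = Nat.log 2 (a k) / 8`. -/
theorem infinite_thm4 : ∃ (A : Set ℕ) (C : ℝ), (∀ n, ∃ x ∈ A, ∃ y ∈ A, x + y = n) ∧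
    (∀ j : ℕ, 2 ≤ j → (blockMax A j : ℝ) ≤ C * (j / Real.log j)) ∧
    (∀ J : ℕ, 2 ≤ J → ∑ j ∈ range J, (blockMax A j : ℝ) ≤ J * Real.exp (C * √(Real.log J))) ∧
    ∀ ρ : ℝ, 0 ≤ ρ → ρ < 1 → ∃ A' : Set ℕ, A' ⊆ A ∧
      (∀ l n : ℕ, 2 ≤ l → n < 2 ^ l →
        (rep A' n : ℝ) ≤ (l : ℝ) ^ ρ * Real.exp (C * √(Real.log l))) ∧
      ∀ᶠ J : ℕ in atTop,
        (badCount A' J : ℝ) ≤ (J : ℝ) ^ (1 - ρ) * Real.exp (-√(Real.log J)) := by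
  sorry

end levels

end Pool.Agent.Helper74.FN.St
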